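import Pool.Agent.H487.GA.Stm2

/-!
# Project GA (helper487), part LEVS: Lévy's theorem for the limit `N(0, 1/8)` (helper914)
-/

set_option autoImplicit false

open Finset Complex Filter Topology Metric Set MeasureTheory

namespace Pool.Agent.H914.GA.LEVS

open ProbabilityTheory

theorem gauss_scale (a : ℝ) : (gaussianReal 0 (1 / 8)).real (Set.Iic a) =
    (gaussianReal 0 1).real (Set.Iic (Real.sqrt 8 * a)) := by
  have h8 : 0 < Real.sqrt 8 := Real.sqrt_pos.2 (by norm_num)
  have h6 := gaussianReal_map_const_mul (μ := 0) (v := 1 / 8) (Real.sqrt 8)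
  have h7 : NNReal.mk (Real.sqrt 8 ^ 2) (sq_nonneg _) * (1 / 8) = 1 := by
    apply NNReal.eq
    rw [NNReal.coe_mul, NNReal.coe_mk, Real.sq_sqrt (by norm_num)]
    norm_num
  rw [mul_zero, h7] at h6
  rw [← h6, map_measureReal_apply (measurable_const_mul _) measurableSet_Iic]
  have h9 : (fun x : ℝ => Real.sqrt 8 * x) ⁻¹' Set.Iic (Real.sqrt 8 * a) = Set.Iic a := by
    ext x
    rw [Set.mem_preimage, Set.mem_Iic, Set.mem_Iic]
    exact mul_le_mul_iff_right₀ h8
  rw [h9]

theorem levs_proof : Pool.Agent.H487.GA.S_LEVS := by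
  intro μ hμ hu a
  have hv : (1 / 8 : NNReal) ≠ 0 := by norm_num
  have hna : NullSingletonClass (gaussianReal 0 (1 / 8)) := nullSingletonClass_gaussianReal hv
  obtain ⟨P, hP⟩ : ∃ P : ℕ → ProbabilityMeasure ℝ, ∀ n, (P n : Measure ℝ) = μ n :=
    ⟨fun n => ⟨μ n, hμ n⟩, fun _ => rfl⟩
  obtain ⟨P0, hP0⟩ : ∃ P0 : ProbabilityMeasure ℝ, (P0 : Measure ℝ) = gaussianReal 0 (1 / 8) :=
    ⟨⟨gaussianReal 0 (1 / 8), inferInstance⟩, rfl⟩
  have h1 : Tendsto P atTop (𝓝 P0) := by
    apply ProbabilityMeasure.tendsto_of_tendsto_charFun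
    intro t
    have e : charFun (P0 : Measure ℝ) t = cexp (-(t : ℂ) ^ 2 / 16) := by
      rw [hP0, charFun_gaussianReal]
      congr 1
      push_cast
      ring
    rw [e]
    refine (hu t).congr fun n => ?_
    rw [hP]
  have h3 := ProbabilityMeasure.tendsto_measure_of_null_frontier_of_tendsto' h1
    (E := Set.Iic a) (by
      rw [frontier_Iic, hP0]
      exact measure_singleton a)
  rw [hP0] at h3
  have h4 : Tendsto (fun n => (μ n).real (Set.Iic a)) atTop
      (𝓝 ((gaussianReal 0 (1 / 8)).real (Set.Iic a))) := by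
    refine ((ENNReal.tendsto_toReal (measure_ne_top _ _)).comp h3).congr fun n => ?_
    rw [Function.comp_apply, hP]
    rfl
  rw [gauss_scale] at h4
  exact h4

end Pool.Agent.H914.GA.LEVS
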